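import Pool.Agent.H42.CS.Der

/-!
# [H42 CT Dev] derivations with allowed lines

`Dv T C Q E k Λ`: the line `Λ` has a derivation from lines in `E` (counted as a tree) with at most `k` lines, all of them with the property
`Q`. `Pv T C V l Γ`: if the nodes of the set `Γ` of signed nodes are in `V`, the assumptions `Γ` are refuted with at most `b ^ l` lines,
`b = bs C = 2 * card N + 8`, all nodes of all lines in `V`.

PROOFS: copy the proofs of `H42/CS/Der.lean` (`Pn.le`, `Pn.mono`, ...): `Dv` is `Der` with the condition `Q` for the line and with hypotheses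
`E` (a hypothesis costs one line); `Pn` there is `Pv` here with the condition on the nodes (`E = ∅`). The line of `Pv l Γ` is `Lit.neg '' Γ`;
`(Lit.neg x).node = x.node`. The private lemmas `fin_lit`, `card_lit`, ... of `Der.lean` have to be copied (private). General rules `Dv.cut` and
so on: `Dv.mk` with `Pr` the set of the premises; if two premises coincide the sum is smaller; `Dv.andI`: at most `2 * card N ≤ b - 8` premises.
`Dv.cuts`: induction over the finite set `X`: from `Λ ∪ Y`, `Y = insert x Y'`, cut with `x` against `insert x.neg (Λ ∪ Y')` (a weakening of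
`insert x.neg Λ`) to `Λ ∪ Y'`: `k' + 2` lines for every member of `X`, and `X` has at most `b - 8` members.
`Pv.chain`: the line `A j := neg Γ ∪ X j` with `k j` lines: `A (j+1)` from `A (j+1) ∪ X j` (weakening of `A j`) and `insert x.neg (A (j+1))`,
`x ∈ X j`, by `Dv.cuts`: `k (j+1) = k j + 1 + b * (b ^ l + 2) + 1`; so `k J ≤ b ^ l + b * (b ^ (l+1) + 2 b + 2) ≤ b ^ (l+4)`.
`Pv.cases`: `Dv.cuts`.
-/

set_option autoImplicit false

namespace Pool.Agent.H42.CT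

open Pool.Agent.H42.CS

variable {Rel : ℕ → Type} {P : Type}

/-- Derivations from the lines in `E`, counted as trees, all lines with the property `Q`. -/
inductive Dv (T : Set (Ax Rel)) (C : Circuit Rel P) (Q : Set (Lit C.N) → Prop)
    (E : Set (Set (Lit C.N))) : ℕ → Set (Lit C.N) → Prop
  | hyp (k : ℕ) (Λ : Set (Lit C.N)) (hk : 1 ≤ k) (hQ : Q Λ) (hE : Λ ∈ E) : Dv T C Q E k Λ
  | mk (k : ℕ) (Λ : Set (Lit C.N)) (Pr : Set (Set (Lit C.N))) (f : Set (Lit C.N) → ℕ) (hQ : Q Λ)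
      (h : ∀ Δ ∈ Pr, Dv T C Q E (f Δ) Δ) (hs : Step T C Pr Λ)
      (hk : (∑ᶠ Δ ∈ Pr, f Δ) + 1 ≤ k) : Dv T C Q E k Λ

/-- All nodes of the line are in `V`. -/
def Ov {C : Circuit Rel P} (V : Set C.N) (Λ : Set (Lit C.N)) : Prop := ∀ x ∈ Λ, x.node ∈ V

/-- The assumptions `Γ` are refuted in at most `b ^ l` lines with all nodes in `V`. -/
def Pv (T : Set (Ax Rel)) (C : Circuit Rel P) (V : Set C.N) (l : ℕ) (Γ : Set (Lit C.N)) : Prop :=
  Ov V Γ → Dv T C (Ov V) ∅ (bs C ^ l) (Lit.neg '' Γ)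

variable {T : Set (Ax Rel)} {C : Circuit Rel P} {Q Q' : Set (Lit C.N) → Prop}
  {E E' : Set (Set (Lit C.N))} {V V' : Set C.N} {k k' l l' : ℕ} {Γ Γ' Λ Δ : Set (Lit C.N)}

theorem Dv.prop (h : Dv T C Q E k Λ) : Q Λ := by
  cases h with
  | hyp _ _ _ hQ _ => exact hQ
  | mk _ _ _ _ hQ _ _ _ => exact hQ

/-! ### General rules -/

theorem Dv.le (h : Dv T C Q E k Λ) (hk : k ≤ k') : Dv T C Q E k' Λ := sorry

theorem Dv.imp (h : Dv T C Q E k Λ) (hQ : ∀ Λ, Q Λ → Q' Λ) (hE : E ⊆ E') : Dv T C Q' E' k Λ := sorry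

theorem Dv.zero (hQ : Q Λ) (hs : Step T C ∅ Λ) : Dv T C Q E 1 Λ := sorry

theorem Dv.one (hQ : Q Λ) (h : Dv T C Q E k Δ) (hs : Step T C {Δ} Λ) : Dv T C Q E (k + 1) Λ := sorry

theorem Dv.weak (hQ : Q Λ) (h : Dv T C Q E k Δ) (hΔ : Δ ⊆ Λ) : Dv T C Q E (k + 1) Λ := sorry

theorem Dv.cut (x : Lit C.N) (hQ : Q Λ) (h : Dv T C Q E k (insert x Λ))
    (h' : Dv T C Q E k' (insert x.neg Λ)) : Dv T C Q E (k + k' + 1) Λ := sorry

/-- The rule for a true conjunction. -/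
theorem Dv.andI {a : C.N} {S : Set (Lit C.N)} (hQ : Q Λ) (hg : C.gate a = .and S)
    (ha : ⟨a, true⟩ ∈ Λ) (h : ∀ x ∈ S, Dv T C Q E k (insert x Λ)) :
    Dv T C Q E (bs C * k + 1) Λ := sorry

/-- The rule for a false conjunction. -/
theorem Dv.andE {a : C.N} {S : Set (Lit C.N)} (hQ : Q Λ) (hg : C.gate a = .and S)
    (ha : ⟨a, false⟩ ∈ Λ) (h : Dv T C Q E k (Λ ∪ Lit.neg '' S)) : Dv T C Q E (k + 1) Λ := sorry

/-- Cuts with all members of a set: from `Λ ∪ X` and all the lines `insert x.neg Λ`, `x ∈ X`. -/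
theorem Dv.cuts {X : Set (Lit C.N)} (hQ : ∀ Y ⊆ X, Q (Λ ∪ Y)) (h : Dv T C Q E k (Λ ∪ X))
    (h' : ∀ x ∈ X, Dv T C Q E k' (insert x.neg Λ))
    (hQ' : ∀ Y ⊆ X, ∀ x ∈ X, Q (insert x.neg (Λ ∪ Y))) :
    Dv T C Q E (k + bs C * (k' + 2) + 1) Λ := sorry

/-! ### Rules for assumptions -/

theorem neg_neg' (x : Lit C.N) : x.neg.neg = x := by
  rcases x with ⟨n, s⟩
  cases s <;> rfl

theorem Pv.le (h : Pv T C V l Γ) (hl : l ≤ l') : Pv T C V l' Γ := sorry

theorem Pv.mono (h : Pv T C V l Γ) (hΓ : Γ ⊆ Γ') (hl : l < l') : Pv T C V l' Γ' := sorry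

/-- More allowed nodes. -/
theorem Pv.big (h : Pv T C V l Γ) (hΓ : Ov V Γ) (hV : V ⊆ V') : Pv T C V' l Γ := sorry

theorem Pv.triv {x : Lit C.N} (h : x ∈ Γ) (h' : x.neg ∈ Γ) : Pv T C V l Γ := sorry

theorem Pv.cut (x : Lit C.N) (hx : x.node ∈ V) (h : Pv T C V l (insert x Γ))
    (h' : Pv T C V l (insert x.neg Γ)) : Pv T C V (l + 1) Γ := sorry

/-- An assumed false conjunction. -/
theorem Pv.andF {a : C.N} {S : Set (Lit C.N)} (hg : C.gate a = .and S) (ha : ⟨a, false⟩ ∈ Γ)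
    (hS : ∀ x ∈ S, x.node ∈ V) (h : ∀ x ∈ S, Pv T C V l (insert x.neg Γ)) :
    Pv T C V (l + 1) Γ := sorry

/-- An assumed true conjunction. -/
theorem Pv.andT {a : C.N} {S : Set (Lit C.N)} (hg : C.gate a = .and S) (ha : ⟨a, true⟩ ∈ Γ)
    (hS : ∀ x ∈ S, x.node ∈ V) (h : Pv T C V l (Γ ∪ S)) : Pv T C V (l + 1) Γ := sorry

/-- A chain of disjunctions: `X 0` holds, each member of `X j` implies `X (j + 1)`; `J ≤ b` steps. -/
theorem Pv.chain {J : ℕ} (hJ : J ≤ bs C) (X : ℕ → Set (Lit C.N)) (hX : ∀ j ≤ J, Ov V (X j))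
    (h0 : Pv T C V l (Γ ∪ Lit.neg '' X 0))
    (h : ∀ j < J, ∀ x ∈ X j, Pv T C V l (insert x (Γ ∪ Lit.neg '' X (j + 1)))) :
    Pv T C V (l + 4) (Γ ∪ Lit.neg '' X J) := sorry

/-- Cases for a disjunction `X` that was derived from `Γ`. -/
theorem Pv.cases {X : Set (Lit C.N)} (hX : Ov V X) (h0 : Pv T C V l (Γ ∪ Lit.neg '' X))
    (h : ∀ x ∈ X, Pv T C V l (insert x Γ)) : Pv T C V (l + 3) Γ := sorry

end Pool.Agent.H42.CT
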