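import Pool.Agent.H42.CT.Dev

/-!
# [H42 CT Flt] the filter gadget

Candidates `g : I`, entries `v j g` (signed nodes), `j < J`. `t j g`: the candidate `g` survives the first `j` stages. Stage `j`: if some
survivor has a false entry, the survivors with a true entry are removed. `k j g`: `g` survives and its entry is false; `w j`: no survivor has a
false entry; `u j g`: the entry of `g` is true and some survivor has a false entry.

PROOFS (rules of Dev.lean; write `+a`, `-a` for `⟨a, true⟩`, `⟨a, false⟩`).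
* `down`: `+t (j+1) g, -t j g` is refuted: `andT` for `t (j+1) g` gives `+t j g`.
* `stage`: for every `g`: `+t j g` and all `-t (j+1) g'` are refuted: `andF` for `-t (j+1) g`: member `+t j g`: closed; member `-u j g`: assume `+u j g`;
  `andT`: `v j g`, `-w j`; `andF` for `-w j`: members `-k j g'`: assume `+k j g'`; `andT`: `+t j g'`, `(v j g').neg`; `andF` for `-t (j+1) g'`: either `-t j g'`:
  closed, or `+u j g'`: `andT` gives `v j g'`: closed.
* `ex`: `Pv.chain` with `Γ = ∅`, `X j = {+t j g : g}`; `X 0`: `andF` for `-t 0 g0` (no members).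
* `mono`: `+t J g, -t j g` (`j ≤ J`) is refuted: `Pv.chain` downwards (`X i = {+t (J - i) g}`, `Γ = {+t J g}`).
* `agr`: `+t (j+1) g, +t (j+1) g', v j g, (v j g').neg` is refuted: `andT` for `t (j+1) g`: `-u j g`; `andF`: `(v j g).neg`: closed; `+w j`: `andT`: `-k j g'`; `andF`:
  `-t j g'`: closed by `down` for `g'`, or `v j g'` (`(v j g').neg.neg`): closed. Then with `mono` (cut on `t (j+1) g`, `t (j+1) g'`).
* `cong`: `Pv.chain` with `Γ ∪ {+t J g}` and `X j = {+t j g'}`: step: assume `+t j g', -t (j+1) g'`; `andF`: `+u j g'`: `andT`: `v j g'`, `-w j`. By the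
  hypothesis cut on `v j g`: it is true. By `mono` cut on `t (j+1) g`: true; `andT`: `-u j g`; `andF`: `(v j g).neg` closed; `+w j` closed.
The exact levels (numbers `20`, `30`) are generous: use `Pv.le`.
-/

set_option autoImplicit false

namespace Pool.Agent.H42.CT

open Pool.Agent.H42.CS

variable {Rel : ℕ → Type} {P : Type}

/-- The filter gadget; all its nodes are in `V`. -/
structure Fil {Rel : ℕ → Type} {P : Type} (C : Circuit Rel P) (V : Set C.N) (I : Type) (J : ℕ)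
    (v : ℕ → I → Lit C.N) where
  t : ℕ → I → C.N
  k : ℕ → I → C.N
  u : ℕ → I → C.N
  w : ℕ → C.N
  t0 : ∀ g, C.gate (t 0 g) = .and ∅
  ts : ∀ j < J, ∀ g, C.gate (t (j + 1) g) = .and {⟨t j g, true⟩, ⟨u j g, false⟩}
  gu : ∀ j < J, ∀ g, C.gate (u j g) = .and {v j g, ⟨w j, false⟩}
  gw : ∀ j < J, C.gate (w j) = .and (Set.range fun g => ⟨k j g, false⟩)
  gk : ∀ j < J, ∀ g, C.gate (k j g) = .and {⟨t j g, true⟩, (v j g).neg}
  tV : ∀ j ≤ J, ∀ g, t j g ∈ V
  kV : ∀ j < J, ∀ g, k j g ∈ V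
  uV : ∀ j < J, ∀ g, u j g ∈ V
  wV : ∀ j < J, w j ∈ V
  vV : ∀ j < J, ∀ g, (v j g).node ∈ V

variable {T : Set (Ax Rel)} {C : Circuit Rel P} {V : Set C.N} {I : Type} {J : ℕ}
  {v : ℕ → I → Lit C.N} {l : ℕ} {Γ : Set (Lit C.N)}

private theorem Fil.oT (F : Fil C V I J v) {j : ℕ} (hj : j < J) (g : I) :
    ∀ x ∈ ({⟨F.t j g, true⟩, ⟨F.u j g, false⟩} : Set (Lit C.N)), x.node ∈ V := by
  rintro x (rfl | rfl)
  · exact F.tV j hj.le g
  · exact F.uV j hj g

private theorem Fil.oU (F : Fil C V I J v) {j : ℕ} (hj : j < J) (g : I) :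
    ∀ x ∈ ({v j g, ⟨F.w j, false⟩} : Set (Lit C.N)), x.node ∈ V := by
  rintro x (rfl | rfl)
  · exact F.vV j hj g
  · exact F.wV j hj

private theorem Fil.oW (F : Fil C V I J v) {j : ℕ} (hj : j < J) :
    ∀ x ∈ (Set.range fun g => (⟨F.k j g, false⟩ : Lit C.N)), x.node ∈ V := by
  rintro _ ⟨g, rfl⟩
  exact F.kV j hj g

private theorem Fil.oK (F : Fil C V I J v) {j : ℕ} (hj : j < J) (g : I) :
    ∀ x ∈ ({⟨F.t j g, true⟩, (v j g).neg} : Set (Lit C.N)), x.node ∈ V := by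
  rintro x (rfl | rfl)
  · exact F.tV j hj.le g
  · exact F.vV j hj g

/-- a survivor survived the stage before -/
private theorem Fil.down (F : Fil C V I J v) {j : ℕ} (hj : j < J) (g : I) (h1 : ⟨F.t (j + 1) g, true⟩ ∈ Γ)
    (h2 : ⟨F.t j g, false⟩ ∈ Γ) : Pv T C V (l + 1) Γ := by
  refine Pv.andT (F.ts j hj g) h1 (F.oT hj g) ?_
  exact Pv.triv (x := ⟨F.t j g, true⟩) (Or.inr (Or.inl rfl)) (Or.inl h2)

private theorem Fil.zero (F : Fil C V I J v) (g : I) (h : ⟨F.t 0 g, false⟩ ∈ Γ) : Pv T C V (l + 1) Γ :=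
  Pv.andF (F.t0 g) h (fun x hx => absurd hx (Set.notMem_empty x)) (fun x hx => absurd hx (Set.notMem_empty x))

private theorem Fil.stage (F : Fil C V I J v) {j : ℕ} (hj : j < J) (g : I) (h1 : ⟨F.t j g, true⟩ ∈ Γ)
    (h2 : ∀ g', ⟨F.t (j + 1) g', false⟩ ∈ Γ) : Pv T C V 6 Γ := by
  refine Pv.andF (F.ts j hj g) (h2 g) (F.oT hj g) ?_
  rintro x (rfl | rfl)
  · exact Pv.triv (x := ⟨F.t j g, true⟩) (Or.inr h1) (Or.inl rfl)
  · refine Pv.andT (a := F.u j g) (F.gu j hj g) (Or.inl rfl) (F.oU hj g) ?_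
    refine Pv.andF (a := F.w j) (F.gw j hj) (Or.inr (Or.inr rfl)) (F.oW hj) ?_
    rintro _ ⟨g', rfl⟩
    refine Pv.andT (a := F.k j g') (F.gk j hj g') (Or.inl rfl) (F.oK hj g') ?_
    refine Pv.andF (a := F.t (j + 1) g') (F.ts j hj g') (Or.inl (Or.inr (Or.inl (Or.inr (h2 g'))))) (F.oT hj g') ?_
    rintro x (rfl | rfl)
    · exact Pv.triv (x := ⟨F.t j g', true⟩) (Or.inr (Or.inr (Or.inl rfl))) (Or.inl rfl)
    · refine Pv.andT (a := F.u j g') (F.gu j hj g') (Or.inl rfl) (F.oU hj g') ?_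
      exact Pv.triv (x := v j g') (Or.inr (Or.inl rfl)) (Or.inl (Or.inr (Or.inr (Or.inr rfl))))

/-- Some candidate survives. -/
theorem Fil.ex (F : Fil C V I J v) (hJ : J ≤ bs C) [Nonempty I] :
    Pv T C V 20 (Set.range fun g => (⟨F.t J g, false⟩ : Lit C.N)) := by
  have hn : ∀ j, Lit.neg '' (Set.range fun g => (⟨F.t j g, true⟩ : Lit C.N)) =
      Set.range fun g => (⟨F.t j g, false⟩ : Lit C.N) := by
    intro j
    rw [← Set.range_comp]
    rfl
  have h := Pv.chain (T := T) (V := V) (l := 6) (Γ := ∅) hJ (fun j => Set.range fun g => (⟨F.t j g, true⟩ : Lit C.N))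
    (by
      rintro j hj _ ⟨g, rfl⟩
      exact F.tV j hj g)
    (by
      rw [hn]
      obtain ⟨g⟩ := (inferInstance : Nonempty I)
      exact F.zero g (Or.inr ⟨g, rfl⟩))
    (by
      rintro j hj _ ⟨g, rfl⟩
      rw [hn]
      exact F.stage hj g (Or.inl rfl) fun g' => Or.inr (Or.inr ⟨g', rfl⟩))
  rw [hn, Set.empty_union] at h
  exact h.le (by norm_num)

/-- a survivor survived all the stages before -/
private theorem Fil.mono (F : Fil C V I J v) (hJ : J ≤ bs C) {j : ℕ} (hj : j ≤ J) (g : I) (h1 : ⟨F.t J g, true⟩ ∈ Γ)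
    (h2 : ⟨F.t j g, false⟩ ∈ Γ) : Pv T C V (l + 6) Γ := by
  have hn : ∀ i, Lit.neg '' ({⟨F.t i g, true⟩} : Set (Lit C.N)) = {⟨F.t i g, false⟩} := by
    intro i
    rw [Set.image_singleton]
    rfl
  have h := Pv.chain (T := T) (V := V) (l := 1) (Γ := {⟨F.t J g, true⟩}) (J := J - j) ((Nat.sub_le _ _).trans hJ)
    (fun i => ({⟨F.t (J - i) g, true⟩} : Set (Lit C.N)))
    (by
      rintro i hi _ rfl
      exact F.tV _ (Nat.sub_le _ _) g)
    (by
      rw [hn, Nat.sub_zero]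
      exact Pv.triv (x := ⟨F.t J g, true⟩) (Or.inl rfl) (Or.inr rfl))
    (by
      rintro i hi _ rfl
      rw [hn]
      have hi2 : J - i = J - (i + 1) + 1 := by omega
      refine F.down (l := 0) (j := J - (i + 1)) (by omega) g (Or.inl ?_) (Or.inr (Or.inr rfl))
      rw [hi2])
  rw [hn] at h
  have h3 : J - (J - j) = j := by omega
  rw [h3] at h
  refine Pv.le (h.mono (l' := 6) ?_ (by norm_num)) (by omega)
  rintro x (rfl | rfl)
  · exact h1
  · exact h2

private theorem Fil.core (F : Fil C V I J v) {j : ℕ} (hj : j < J) (g g' : I) (h1 : ⟨F.t (j + 1) g, true⟩ ∈ Γ)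
    (h2 : ⟨F.t (j + 1) g', true⟩ ∈ Γ) (h3 : v j g ∈ Γ) (h4 : (v j g').neg ∈ Γ) : Pv T C V 5 Γ := by
  refine Pv.andT (F.ts j hj g) h1 (F.oT hj g) ?_
  refine Pv.andF (a := F.u j g) (F.gu j hj g) (Or.inr (Or.inr rfl)) (F.oU hj g) ?_
  rintro x (rfl | rfl)
  · exact Pv.triv (x := v j g) (Or.inr (Or.inl h3)) (Or.inl rfl)
  · refine Pv.andT (a := F.w j) (F.gw j hj) (Or.inl rfl) (F.oW hj) ?_
    refine Pv.andF (a := F.k j g') (F.gk j hj g') (Or.inr ⟨g', rfl⟩) (F.oK hj g') ?_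
    rintro x (rfl | rfl)
    · exact F.down hj g' (Or.inr (Or.inl (Or.inr (Or.inl h2)))) (Or.inl rfl)
    · refine Pv.triv (x := (v j g').neg) (Or.inr (Or.inl (Or.inr (Or.inl h4)))) (Or.inl rfl)

/-- All survivors have the same entries. -/
theorem Fil.agr (F : Fil C V I J v) (hJ : J ≤ bs C) {j : ℕ} (hj : j < J) (g g' : I) :
    Pv T C V 20 {⟨F.t J g, true⟩, ⟨F.t J g', true⟩, v j g, (v j g').neg} := by
  refine Pv.le (l := 8) ?_ (by norm_num)
  refine Pv.cut ⟨F.t (j + 1) g, true⟩ (F.tV _ hj g) ?_ ?_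
  · refine Pv.cut ⟨F.t (j + 1) g', true⟩ (F.tV _ hj g') ?_ ?_
    · refine Pv.le (l := 5) ?_ (by norm_num)
      exact F.core hj g g' (Or.inr (Or.inl rfl)) (Or.inl rfl) (Or.inr (Or.inr (Or.inr (Or.inr (Or.inl rfl)))))
        (Or.inr (Or.inr (Or.inr (Or.inr (Or.inr rfl)))))
    · exact F.mono hJ (l := 0) (j := j + 1) hj g' (Or.inr (Or.inr (Or.inr (Or.inl rfl)))) (Or.inl rfl)
  · exact F.mono hJ (l := 1) (j := j + 1) hj g (Or.inr (Or.inl rfl)) (Or.inl rfl)

/-- A candidate with the same entries as a survivor survives. -/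
theorem Fil.cong (F : Fil C V I J v) (hJ : J ≤ bs C) (g g' : I)
    (h1 : ∀ j < J, Pv T C V l (Γ ∪ {v j g', (v j g).neg})) :
    Pv T C V (l + 30) (Γ ∪ {⟨F.t J g, true⟩, ⟨F.t J g', false⟩}) := by
  have hn : ∀ i, Lit.neg '' ({⟨F.t i g', true⟩} : Set (Lit C.N)) = {⟨F.t i g', false⟩} := by
    intro i
    rw [Set.image_singleton]
    rfl
  have h := Pv.chain (T := T) (V := V) (l := l + 10) (Γ := Γ ∪ {⟨F.t J g, true⟩}) hJ
    (fun i => ({⟨F.t i g', true⟩} : Set (Lit C.N)))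
    (by
      rintro i hi _ rfl
      exact F.tV _ hi g')
    (by
      rw [hn]
      exact F.zero (l := l + 9) g' (Or.inr rfl))
    (by
      rintro j hj _ rfl
      rw [hn]
      refine Pv.andF (a := F.t (j + 1) g') (l := l + 9) (F.ts j hj g') (Or.inr (Or.inr rfl)) (F.oT hj g') ?_
      rintro x (rfl | rfl)
      · exact Pv.triv (x := ⟨F.t j g', true⟩) (Or.inr (Or.inl rfl)) (Or.inl rfl)
      · refine Pv.andT (a := F.u j g') (l := l + 8) (F.gu j hj g') (Or.inl rfl) (F.oU hj g') ?_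
        refine Pv.cut (l := l + 7) (v j g) (F.vV j hj g) ?_ ?_
        · refine Pv.cut (l := l + 6) ⟨F.t (j + 1) g, true⟩ (F.tV _ hj g) ?_ ?_
          · refine Pv.andT (a := F.t (j + 1) g) (l := l + 5) (F.ts j hj g) (Or.inl rfl) (F.oT hj g) ?_
            refine Pv.andF (a := F.u j g) (l := l + 4) (F.gu j hj g) (Or.inr (Or.inr rfl)) (F.oU hj g) ?_
            rintro x (rfl | rfl)
            · exact Pv.triv (x := v j g) (Or.inr (Or.inl (Or.inr (Or.inl rfl)))) (Or.inl rfl)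
            · exact Pv.triv (x := ⟨F.w j, false⟩) (Or.inr (Or.inl (Or.inr (Or.inr (Or.inr (Or.inr rfl)))))) (Or.inl rfl)
          · refine F.mono hJ (j := j + 1) hj g (Or.inr (Or.inr (Or.inl (Or.inr (Or.inr (Or.inl (Or.inr rfl))))))) (Or.inl rfl)
        · refine Pv.mono (h1 j hj) ?_ (by omega)
          rintro x (hx | rfl | rfl)
          · exact Or.inr (Or.inl (Or.inr (Or.inr (Or.inl (Or.inl hx)))))
          · exact Or.inr (Or.inr (Or.inl rfl))
          · exact Or.inl rfl)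
  rw [hn] at h
  have he : Γ ∪ {⟨F.t J g, true⟩} ∪ {⟨F.t J g', false⟩} =
      Γ ∪ ({⟨F.t J g, true⟩, ⟨F.t J g', false⟩} : Set (Lit C.N)) := by
    rw [Set.union_assoc]
    rfl
  rw [he] at h
  exact h.le (by omega)

end Pool.Agent.H42.CT
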