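import Pool.Agent.H42.CT.Dev
import Pool.Agent.H42.CS.Sym

/-!
# [H42 CT Gds] good sets of lines

A set `L` of lines is good (`Gs`) if for some order every line of `L` has the property `Q` and follows in one step from earlier lines of `L`.

PROOFS. `gs_union`, `gs_iUnion`: as in the proof of `to_refutation` (`good_ex` in H42/CS/Der.lean): for a union of good sets with orders `o i` take
`o Λ :=` the least `o i Λ` over the `i` with `Λ ∈ L i` (the step of the set in which it is attained can be used). `gs_insert`: the order of the new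
line larger than all others (if it is in `L` nothing has to be done). `gs_der`: induction on `Dv`: `hyp`: nothing to do (`Λ ∈ E ⊆ L`); `mk`: the
induction hypothesis for the members `Δ` of `Pr`, applied to `L`: sets `L Δ ⊇ L`; their union is good, add `Λ`. The number of new lines is at most
`(∑ f Δ) + 1`: prove the statement in the form `(L' \ L).ncard ≤ k`. `gs_many`: for each `i` a good set `L i ⊇ L0` by `gs_der`, union.
`gs_closure`: the group `G` acts by `act` compatibly with the gates; `L' := {Lit.map (act g) '' Λ : g, Λ ∈ L}` is good: `step_map` (H42/CS/Sym.lean)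
with `φ = act g`; order: the least `o Λ` over the pairs with the given image. Number: every line has at most `B` different images.
-/

set_option autoImplicit false

namespace Pool.Agent.H42.CT

open Pool.Agent.H42.CS

variable {Rel : ℕ → Type} {P : Type}

/-- Good sets of lines. -/
def Gs (T : Set (Ax Rel)) (C : Circuit Rel P) (Q : Set (Lit C.N) → Prop)
    (L : Set (Set (Lit C.N))) : Prop :=
  ∃ o : Set (Lit C.N) → ℕ, ∀ Λ ∈ L, Q Λ ∧ Step T C {Δ | Δ ∈ L ∧ o Δ < o Λ} Λ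

variable {T : Set (Ax Rel)} {C : Circuit Rel P} {Q : Set (Lit C.N) → Prop}
  {L L' E : Set (Set (Lit C.N))} {k : ℕ} {Λ : Set (Lit C.N)}

private theorem gd_fin (N : Type) [Finite N] : Finite (Lit N) :=
  Finite.of_injective (fun x : Lit N => (x.node, x.pos)) (by
    rintro ⟨a, s⟩ ⟨b, t⟩ h
    have h1 : a = b := congrArg Prod.fst h
    have h2 : s = t := congrArg Prod.snd h
    rw [h1, h2])

private theorem gd_bUnion {α β : Type} [Finite β] (A : Finset α) (L : α → Set β) :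
    (⋃ x ∈ A, L x).ncard ≤ ∑ x ∈ A, (L x).ncard := by
  classical
  induction A using Finset.induction_on with
  | empty => simp
  | insert x A hx ih =>
    rw [Finset.set_biUnion_insert, Finset.sum_insert hx]
    exact (Set.ncard_union_le _ _).trans (Nat.add_le_add_left ih _)

theorem gs_empty : Gs T C Q ∅ := ⟨fun _ => 0, fun _ h => absurd h (Set.notMem_empty _)⟩

theorem gs_iUnion {β : Type} (S : Set β) (L : β → Set (Set (Lit C.N))) (h : ∀ i ∈ S, Gs T C Q (L i)) :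
    Gs T C Q (⋃ i ∈ S, L i) := by
  classical
  choose! o ho using h
  have hex : ∀ Λ ∈ ⋃ i ∈ S, L i, ∃ i ∈ S, Λ ∈ L i ∧
      sInf {n | ∃ i ∈ S, Λ ∈ L i ∧ n = o i Λ} = o i Λ := by
    intro Λ hΛ
    obtain ⟨i, hi, h1⟩ := Set.mem_iUnion₂.1 hΛ
    have h2 : {n | ∃ i ∈ S, Λ ∈ L i ∧ n = o i Λ}.Nonempty := ⟨_, i, hi, h1, rfl⟩
    obtain ⟨j, hj, h3, h4⟩ := Nat.sInf_mem h2
    exact ⟨j, hj, h3, h4⟩
  refine ⟨fun Λ => sInf {n | ∃ i ∈ S, Λ ∈ L i ∧ n = o i Λ}, fun Λ hΛ => ?_⟩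
  obtain ⟨i, hi, h1, h2⟩ := hex Λ hΛ
  obtain ⟨h3, h4⟩ := ho i hi Λ h1
  refine ⟨h3, Step.mono ?_ h4⟩
  rintro Δ ⟨h5, h6⟩
  refine ⟨Set.mem_iUnion₂.2 ⟨i, hi, h5⟩, ?_⟩
  beta_reduce
  rw [h2]
  have h7 : o i Δ ∈ {n | ∃ i ∈ S, Δ ∈ L i ∧ n = o i Δ} := ⟨i, hi, h5, rfl⟩
  exact (Nat.sInf_le h7).trans_lt h6

private theorem gs_union (h : Gs T C Q L) (h' : Gs T C Q L') : Gs T C Q (L ∪ L') := by
  have h1 := gs_iUnion (T := T) (Q := Q) (Set.univ : Set Bool) (fun b => if b = true then L else L')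
    (by
      intro b _
      cases b
      · exact h'
      · exact h)
  have h2 : (⋃ b ∈ (Set.univ : Set Bool), if b = true then L else L') = L ∪ L' := by
    ext Λ
    simp only [Set.mem_iUnion, Set.mem_univ, exists_true_left, Set.mem_union]
    constructor
    · rintro ⟨b, hb⟩
      cases b
      · exact Or.inr hb
      · exact Or.inl hb
    · rintro (hb | hb)
      · exact ⟨true, hb⟩
      · exact ⟨false, hb⟩
  rw [h2] at h1
  exact h1

theorem gs_insert (h : Gs T C Q L) (hQ : Q Λ) (hs : Step T C L Λ) : Gs T C Q (insert Λ L) := by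
  classical
  by_cases hΛ : Λ ∈ L
  · rw [Set.insert_eq_of_mem hΛ]
    exact h
  obtain ⟨o, ho⟩ := h
  have hN := C.fin
  have hfl : Finite (Lit C.N) := gd_fin _
  obtain ⟨M, hM⟩ := (Set.toFinite (Set.range o)).bddAbove
  have hM' : ∀ Λ', o Λ' ≤ M := fun Λ' => hM ⟨Λ', rfl⟩
  have hne : ∀ Λ' ∈ L, Λ' ≠ Λ := fun Λ' h1 h2 => hΛ (h2 ▸ h1)
  refine ⟨fun Λ' => if Λ' = Λ then M + 1 else o Λ', ?_⟩
  rintro Λ' (rfl | h1)
  · refine ⟨hQ, Step.mono ?_ hs⟩
    intro Δ h2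
    refine ⟨Or.inr h2, ?_⟩
    beta_reduce
    rw [if_neg (hne Δ h2), if_pos rfl]
    exact Nat.lt_succ_of_le (hM' Δ)
  · refine ⟨(ho Λ' h1).1, Step.mono ?_ (ho Λ' h1).2⟩
    rintro Δ ⟨h2, h3⟩
    refine ⟨Or.inr h2, ?_⟩
    beta_reduce
    rw [if_neg (hne Δ h2), if_neg (hne Λ' h1)]
    exact h3

private theorem gd_collect {β : Type} (S : Set β) (hS : S.Finite) (h : Gs T C Q L) (f : β → ℕ)
    (Λ : β → Set (Lit C.N)) (ih : ∀ i ∈ S, ∃ L' : Set (Set (Lit C.N)), L ⊆ L' ∧ Gs T C Q L' ∧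
      Λ i ∈ L' ∧ (L' \ L).ncard ≤ f i) :
    ∃ L' : Set (Set (Lit C.N)), L ⊆ L' ∧ Gs T C Q L' ∧ (∀ i ∈ S, Λ i ∈ L') ∧
      (L' \ L).ncard ≤ ∑ᶠ i ∈ S, f i := by
  have hN := C.fin
  have hfl : Finite (Lit C.N) := gd_fin _
  choose! Lf h1 h2 h3 h4 using ih
  refine ⟨L ∪ ⋃ i ∈ S, Lf i, Set.subset_union_left, gs_union h (gs_iUnion S Lf h2),
    fun i hi => Or.inr (Set.mem_iUnion₂.2 ⟨i, hi, h3 i hi⟩), ?_⟩
  have e1 : (L ∪ ⋃ i ∈ S, Lf i) \ L ⊆ ⋃ i ∈ hS.toFinset, (Lf i \ L) := by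
    rintro Δ ⟨hΔ | hΔ, hn⟩
    · exact absurd hΔ hn
    · obtain ⟨i, hi, h5⟩ := Set.mem_iUnion₂.1 hΔ
      exact Set.mem_iUnion₂.2 ⟨i, hS.mem_toFinset.2 hi, h5, hn⟩
  refine (Set.ncard_le_ncard e1 (Set.toFinite _)).trans ((gd_bUnion _ _).trans ?_)
  rw [finsum_mem_eq_finite_toFinset_sum _ hS]
  exact Finset.sum_le_sum fun i hi => h4 i (hS.mem_toFinset.1 hi)

theorem gs_der (h : Gs T C Q L) (hE : E ⊆ L) (hd : Dv T C Q E k Λ) :
    ∃ L' : Set (Set (Lit C.N)), L ⊆ L' ∧ Gs T C Q L' ∧ Λ ∈ L' ∧ (L' \ L).ncard ≤ k := by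
  have hN := C.fin
  have hfl : Finite (Lit C.N) := gd_fin _
  induction hd with
  | hyp k Λ hk hQ hE' =>
    refine ⟨L, subset_rfl, h, hE hE', ?_⟩
    rw [Set.sdiff_self, Set.ncard_empty]
    exact Nat.zero_le _
  | mk k Λ Pr f hQ hd hs hk ih =>
    obtain ⟨U, h1, h2, h3, h4⟩ := gd_collect Pr (Set.toFinite Pr) h f id ih
    refine ⟨insert Λ U, h1.trans (Set.subset_insert _ _), gs_insert h2 hQ
      (Step.mono (fun Δ hΔ => h3 Δ hΔ) hs), Set.mem_insert _ _, ?_⟩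
    have e1 : insert Λ U \ L ⊆ insert Λ (U \ L) := by
      rintro Δ ⟨rfl | hΔ, hn⟩
      · exact Or.inl rfl
      · exact Or.inr ⟨hΔ, hn⟩
    exact (Set.ncard_le_ncard e1 (Set.toFinite _)).trans
      ((Set.ncard_insert_le _ _).trans ((Nat.add_le_add_right h4 1).trans hk))

theorem gs_many {β : Type} {S : Set β} (hS : S.Finite) (h : Gs T C Q L) (Λ : β → Set (Lit C.N))
    (hE : E ⊆ L) (hd : ∀ i ∈ S, Dv T C Q E k (Λ i)) :
    ∃ L' : Set (Set (Lit C.N)), L ⊆ L' ∧ Gs T C Q L' ∧ (∀ i ∈ S, Λ i ∈ L') ∧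
      (L' \ L).ncard ≤ S.ncard * k := by
  obtain ⟨L', h1, h2, h3, h4⟩ := gd_collect S hS h (fun _ => k) Λ
    (fun i hi => gs_der h hE (hd i hi))
  refine ⟨L', h1, h2, h3, h4.trans (le_of_eq ?_)⟩
  rw [finsum_mem_eq_finite_toFinset_sum _ hS, Finset.sum_const, smul_eq_mul,
    ← Set.ncard_eq_toFinset_card S hS]

theorem gs_closure {G : Type} [Group G] (act : G →* Equiv.Perm C.N) (σ : G → Equiv.Perm P)
    (hact : ∀ g a, C.gate (act g a) = (C.gate a).map (σ g) (act g)) (B : ℕ)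
    (hB : ∀ Λ ∈ L, (Set.range fun g : G => Lit.map (act g) '' Λ).ncard ≤ B)
    (h : Gs T C (fun _ => True) L) :
    ∃ L' : Set (Set (Lit C.N)), L ⊆ L' ∧ Gs T C (fun _ => True) L' ∧
      (∀ g : G, ∀ Λ ∈ L', Lit.map (act g) '' Λ ∈ L') ∧ L'.ncard ≤ B * L.ncard := by
  have hN := C.fin
  have hfl : Finite (Lit C.N) := gd_fin _
  have hinj : ∀ g : G, Function.Injective (Lit.map (act g) : Lit C.N → Lit C.N) := by
    intro g
    rintro ⟨a, s⟩ ⟨b, t⟩ h1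
    have h2 : act g a = act g b := congrArg Lit.node h1
    have h3 : s = t := congrArg Lit.pos h1
    rw [(act g).injective h2, h3]
  have hmul : ∀ (g g' : G) (Λ : Set (Lit C.N)),
      Lit.map (act g) '' (Lit.map (act g') '' Λ) = Lit.map (act (g * g')) '' Λ := by
    intro g g' Λ
    rw [Set.image_image, map_mul]
    rfl
  have hone : ∀ Λ : Set (Lit C.N), Lit.map (act 1) '' Λ = Λ := by
    intro Λ
    rw [map_one]
    have h1 : (Lit.map (⇑(1 : Equiv.Perm C.N)) : Lit C.N → Lit C.N) = id := by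
      funext x
      rfl
    rw [h1, Set.image_id]
  obtain ⟨o, ho⟩ := h
  refine ⟨⋃ g ∈ (Set.univ : Set G), (fun Λ => Lit.map (act g) '' Λ) '' L, ?_, ?_, ?_, ?_⟩
  · intro Λ hΛ
    exact Set.mem_iUnion₂.2 ⟨1, Set.mem_univ _, Λ, hΛ, hone Λ⟩
  · refine gs_iUnion _ _ fun g _ => ⟨fun Λ' => o (Lit.map (act g) ⁻¹' Λ'), ?_⟩
    rintro _ ⟨Λ, hΛ, rfl⟩
    refine ⟨trivial, step_map (σ g) (act g) (act g).injective (hact g) ?_ (ho Λ hΛ).2⟩
    rintro Δ ⟨h1, h2⟩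
    refine ⟨⟨Δ, h1, rfl⟩, ?_⟩
    beta_reduce
    rw [Set.preimage_image_eq _ (hinj g), Set.preimage_image_eq _ (hinj g)]
    exact h2
  · intro g Λ' hΛ'
    obtain ⟨g', -, Λ, hΛ, rfl⟩ := Set.mem_iUnion₂.1 hΛ'
    exact Set.mem_iUnion₂.2 ⟨g * g', Set.mem_univ _, Λ, hΛ, (hmul g g' Λ).symm⟩
  · have e1 : (⋃ g ∈ (Set.univ : Set G), (fun Λ => Lit.map (act g) '' Λ) '' L) ⊆
        ⋃ Λ ∈ (Set.toFinite L).toFinset, Set.range fun g : G => Lit.map (act g) '' Λ := by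
      intro Λ' hΛ'
      obtain ⟨g', -, Λ, hΛ, rfl⟩ := Set.mem_iUnion₂.1 hΛ'
      exact Set.mem_iUnion₂.2 ⟨Λ, (Set.toFinite L).mem_toFinset.2 hΛ, g', rfl⟩
    refine (Set.ncard_le_ncard e1 (Set.toFinite _)).trans ((gd_bUnion _ _).trans ?_)
    refine (Finset.sum_le_card_nsmul _ _ B fun Λ hΛ =>
      hB Λ ((Set.toFinite L).mem_toFinset.1 hΛ)).trans (le_of_eq ?_)
    rw [smul_eq_mul, mul_comm, ← Set.ncard_eq_toFinset_card L (Set.toFinite L)]

end Pool.Agent.H42.CT
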